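import Pool.Agent.Helper48.AX.Defs

/-! # Module FORM: perimeter formula (telescoping) -/

open scoped MeasureTheory ENNReal

namespace AX

lemma form_dl_pos {r : ℝ} (hr : 0 < r) {x y : ℂ} (h : x ≠ y) : 0 < dl r x y := by
  unfold dl
  rw [Real.arcsin_pos]
  have := dist_pos.2 h
  positivity

theorem st_FORM (h1 : ST_HULL) (h2 : ST_PER) : ST_FORM := by
  intro n r c hr hinj hne
  obtain ⟨σ, a, b, hab, hT, hstep, hlast⟩ := h1 n r c hr hinj hne
  have hD : ∀ i j : Fin (n + 2), i ≠ j → 0 < dl r (c (σ i)) (c (σ j)) := fun i j hij =>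
    form_dl_pos hr (fun h => hij (σ.injective (hinj h)))
  refine ⟨σ, a, ?_, ?_, ?_, ?_⟩
  · rw [Fin.strictMono_iff_lt_succ]
    intro k
    have h3 := hab k.castSucc
    have h4 := hstep k
    have h5 := hD k.castSucc k.succ (Fin.castSucc_lt_succ).ne
    linarith
  · have h3 := hab (Fin.last (n + 1))
    have h5 := hD (Fin.last (n + 1)) 0 (Fin.last_pos).ne'
    linarith
  · intro k
    have : a k ∈ Set.Icc (a k) (b k) := ⟨le_rfl, hab k⟩
    rw [← hT k] at this
    exact this.1
  · rw [h2 (n + 1) r c (fun i => a (σ.symm i)) hr hinj]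
    have hsum : ∑ i, MeasureTheory.volume
        (T r c i ∩ Set.Ico (a (σ.symm i)) (a (σ.symm i) + 2 * Real.pi)) =
        ENNReal.ofReal (∑ k, (b k - a k)) := by
      rw [← Equiv.sum_comp σ, ENNReal.ofReal_sum_of_nonneg (fun k _ => sub_nonneg.2 (hab k))]
      refine Finset.sum_congr rfl fun k _ => ?_
      rw [Equiv.symm_apply_apply, hT k, Real.volume_Icc]
    rw [hsum, ← ENNReal.ofReal_mul hr.le]
    congr 1
    have hs : ∑ k, (b k - a k) = 2 * Real.pi -
        2 * tour (fun i j => dl r (c i) (c j)) (fun k => σ k) := by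
      rw [Finset.sum_sub_distrib, Fin.sum_univ_castSucc b, Fin.sum_univ_succ a]
      unfold tour
      have h6 : ∑ k : Fin (n + 1), a k.succ = ∑ k : Fin (n + 1), b k.castSucc +
          2 * ∑ k : Fin (n + 1), dl r (c (σ k.castSucc)) (c (σ k.succ)) := by
        rw [Finset.mul_sum, ← Finset.sum_add_distrib]
        exact Finset.sum_congr rfl fun k _ => (hstep k).symm
      rw [h6]
      linarith
    rw [hs]
    ring

end AX
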